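import Mathlib
import Pool.Agent.X195.GI6

/-!
# Every pair (mapping index, cross-index of the face poset) is realised

Positive answer to Q1 of MP_848d58_co, for every nontrivial finite group `G` and all `1 ≤ m < n`.
Construction: a finite free `G`-poset `X`, built recursively (disjoint copies of the previous stage,
and new maximal elements above two elements of different copies, twisted by a fixed `s ≠ 1`), such
that every bounded nonempty subset has a least upper bound, the twists are recorded by integers,
and every `G`-map to a `Q_j G` reaches level `n`.  The complex of bounded nonempty subsets of `X`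
has a continuous `G`-map to `E_1 G`, and its face poset maps to `X` and contains `X` (principal
ideals).  The answer is its disjoint union with `E_m G`.
-/

set_option autoImplicit false

namespace Pool.Agent.Results.MP_848d58_co.AllPairsRealised

open Pool.Agent.X195.GI

/-- For every nontrivial finite group `G` and all positive integers `m < n` there is a finite free
`G`-simplicial complex `K` with `ind K = m` and `Xind F(K) = n`. -/
theorem result (G : Type) [Group G] [Fintype G] [Nontrivial G] (m n : ℕ) (hm : 1 ≤ m)
    (hmn : m < n) :
    ∃ K : GComplex G, K.IsFree ∧
      IsLeast {k : ℕ | K.HasTopMap (Q G k).Delta} m ∧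
      IsLeast {k : ℕ | K.F.HasMap (Q G k)} n := by
  obtain ⟨K, h1, h2, h3, h4, h5⟩ := main_complex G m n hm hmn
  refine ⟨K, h1, ⟨h2, fun k hk => ?_⟩, ⟨h4, fun k hk => ?_⟩⟩
  · by_contra hlt
    exact h3 k (not_le.mp hlt) hk
  · by_contra hlt
    exact h5 k (not_le.mp hlt) hk

end Pool.Agent.Results.MP_848d58_co.AllPairsRealised
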